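import Pool.Agent.Run7.h568.DG.Final

/-!
# Dense Thurston geodesics in moduli space

For every orientable surface of genus `g` with `n` punctures, `2 g - 2 + n > 0`, other than the
thrice punctured sphere (whose Teichmueller space is a point), there is a Thurston geodesic whose
projection to moduli space is dense.

Two models.  `Tri D` is an ideal triangulation of a punctured surface.  (1) The surface is
triangulated by `T`, and two of its triangles form an annulus (`Annulus T`); Teichmueller space
`T.Teich` is the space of shear coordinates.  (2) The surface is obtained from the triangulated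
surface `T` by gluing two punctures (`Portal T`): it has a nonseparating curve `α` and may be
closed; Teichmueller space `P.Teich` consists of the shears and of a twist parameter.
-/

open Run7.h568.DG

theorem Pool.Agent.Results.MP_00a7c6_gt.DenseThurstonGeodesic.result :
    (∀ {D : Type} [Fintype D] [DecidableEq D] (T : Tri D) (P : Portal T),
      ∃ G : ℝ → P.Teich, (∀ s t, s ≤ t → P.dTh (G s) (G t) = t - s) ∧
        ∀ O : Set P.Teich, IsOpen O → O.Nonempty → ∃ t, ∃ x ∈ O, P.SameModuli (G t) x) ∧
    (∀ {D : Type} [Fintype D] [DecidableEq D] (T : Tri D), Nonempty (Annulus T) →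
      ∃ G : ℝ → T.Teich, (∀ s t, s ≤ t → T.dTh (G s) (G t) = t - s) ∧
        ∀ O : Set T.Teich, IsOpen O → O.Nonempty → ∃ t, ∃ x ∈ O, T.SameModuli (G t) x) ∧
    (∀ g n : ℕ, 1 ≤ g → 5 ≤ 3 * g + n →
      ∃ (D : Type) (_ : Fintype D) (_ : DecidableEq D) (T : Tri D), Nonempty (Portal T) ∧
        T.punctures = n + 2 ∧ Fintype.card D + 12 = 12 * (g - 1) + 6 * (n + 2)) ∧
    (∀ g n : ℕ, 1 ≤ n → 4 ≤ 3 * g + n →
      ∃ (D : Type) (_ : Fintype D) (_ : DecidableEq D) (T : Tri D), Nonempty (Annulus T) ∧
        T.punctures = n ∧ Fintype.card D + 12 = 12 * g + 6 * n) :=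
  ⟨fun T P => final_portal T P, fun T A => final_annulus T A, final_surfP, final_surf⟩
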